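import Pool.Agent.Run7.h424.M21.Tk
import Pool.Agent.Y655.XT.Shavc

/-!
# The rational torsion points of `y² = x (x + 9 n) (x - 7 n)`, `n = 3` modulo `4`, and the
change of variables to the minimal model
-/

set_option autoImplicit false

open WeierstrassCurve

namespace Run7.h424.M21

open Pool.Agent.TH841.NF.D (Sha)
open Pool.Agent.Y700 (VR)

lemma tors2 {G : Type*} [AddCommGroup G]
    (h4 : ∀ R : G, (R + R) + (R + R) = 0 → R + R = 0)
    (hodd : ∀ (R : G) (m : ℕ), Odd m → m • R = 0 → R = 0) (P : G) (hf : IsOfFinAddOrder P) :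
    P + P = 0 := by
  rw [isOfFinAddOrder_iff_nsmul_eq_zero] at hf
  obtain ⟨N, hN, hP⟩ := hf
  obtain ⟨k, m, hm, hN2⟩ := Nat.exists_eq_two_pow_mul_odd hN.ne'
  have h2 : ∀ (k : ℕ) (R : G), 2 ^ k • R = 0 → R + R = 0 := by
    intro k
    induction k with
    | zero =>
      intro R hR
      rw [pow_zero, one_smul] at hR
      rw [hR, add_zero]
    | succ k ih =>
      intro R hR
      refine h4 R (ih (R + R) ?_)
      rw [← two_smul ℕ R, smul_smul, ← pow_succ]
      exact hR
  have h1 : 2 ^ k • (m • P) = 0 := by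
    rw [smul_smul, ← hN2]
    exact hP
  have h3 := h2 k _ h1
  refine hodd (P + P) m hm ?_
  rw [smul_add]
  exact h3

lemma nsq {n : ℕ} (hn : n % 4 = 3) : ¬ IsSquare (n : ℚ) := by
  intro h
  rw [Rat.isSquare_natCast_iff] at h
  obtain ⟨r, hr⟩ := h
  rcases Nat.even_or_odd' r with ⟨k, hk | hk⟩
  · rw [hk] at hr
    have : 2 * k * (2 * k) = 4 * (k * k) := by ring
    omega
  · rw [hk] at hr
    have : (2 * k + 1) * (2 * k + 1) = 4 * (k * k + k) + 1 := by ring
    omega

open Classical in
lemma no4 {n : ℕ} (hn : n % 4 = 3) (R : (EJ n).toAffine.Point) (h : (R + R) + (R + R) = 0) :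
    R + R = 0 := by
  have hnq : (0 : ℚ) < n := by
    have : 0 < n := by omega
    exact_mod_cast this
  cases R with
  | zero => exact add_zero _
  | some x y hxy =>
    by_cases hy : y = 0
    · subst hy
      apply Affine.Point.add_self_of_Y_eq
      simp [Affine.negY]
    · exfalso
      obtain ⟨X, Y, H, h1, hX, h9, h25⟩ := dbl x y hxy hy
      rw [h1] at h
      rcases two _ h with h2 | ⟨X', H', h2, h3⟩
      · exact Affine.Point.some_ne_zero _ h2
      · have h4 := ((Affine.Point.some.injEq ..).mp h2).1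
        rw [← h4] at h3
        rcases h3 with h3 | h3 | h3
        · rw [h3, zero_add] at h9
          apply nsq hn
          refine ⟨(((x + 9 * n) ^ 2 - 144 * n ^ 2) / (2 * y)) / 3, ?_⟩
          linear_combination h9 / 9
        · rw [h3] at hX
          have := sq_nonneg ((x ^ 2 + 63 * (n : ℚ) ^ 2) / (2 * y))
          rw [← hX] at this
          linarith
        · rw [h3] at h9
          apply nsq hn
          refine ⟨(((x + 9 * n) ^ 2 - 144 * n ^ 2) / (2 * y)) / 4, ?_⟩
          linear_combination h9 / 16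

open Classical in
/-- the torsion subgroup of `y² = x (x + 9 n) (x - 7 n)` -/
theorem tors_card {n : ℕ} (hn : n % 4 = 3) :
    Nat.card (AddCommGroup.torsion (EJ n).toAffine.Point) = 4 := by
  have hn0 : n ≠ 0 := by omega
  have hnq : (0 : ℚ) < n := by
    have : 0 < n := by omega
    exact_mod_cast this
  have n0 := ns hn0 (x := 0) (y := 0) (by ring)
  have n9 := ns hn0 (x := -9 * n) (y := 0) (by ring)
  have n25 := ns hn0 (x := 7 * n) (y := 0) (by ring)
  set S : Finset (EJ n).toAffine.Point :=
    {0, Affine.Point.some 0 0 n0, Affine.Point.some _ 0 n9, Affine.Point.some _ 0 n25} with hS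
  have hz : ∀ (x : ℚ) (H : (EJ n).toAffine.Nonsingular x 0),
      IsOfFinAddOrder (Affine.Point.some x 0 H : (EJ n).toAffine.Point) := by
    intro x H
    rw [isOfFinAddOrder_iff_nsmul_eq_zero]
    refine ⟨2, by norm_num, ?_⟩
    rw [two_smul]
    apply Affine.Point.add_self_of_Y_eq
    simp [Affine.negY]
  have h1 : (AddCommGroup.torsion (EJ n).toAffine.Point : Set (EJ n).toAffine.Point) = S := by
    ext P
    simp only [SetLike.mem_coe, hS, Finset.coe_insert, Finset.coe_singleton,
      Set.mem_insert_iff, Set.mem_singleton_iff]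
    constructor
    · intro hP
      have h2 : IsOfFinAddOrder P := hP
      have h3 := tors2 (no4 hn) (fun R m hm hR => noodd hn R hm hR) P h2
      rcases two P h3 with h4 | ⟨x, H, h4, h5⟩
      · exact Or.inl h4
      · right
        rcases h5 with rfl | rfl | rfl
        · exact Or.inl h4
        · exact Or.inr (Or.inl h4)
        · exact Or.inr (Or.inr h4)
    · rintro (rfl | rfl | rfl | rfl)
      · exact AddSubgroup.zero_mem _
      · exact hz _ _
      · exact hz _ _
      · exact hz _ _
  have h2 : Nat.card (AddCommGroup.torsion (EJ n).toAffine.Point) = S.card := by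
    have h3 : Nat.card (AddCommGroup.torsion (EJ n).toAffine.Point) =
        (AddCommGroup.torsion (EJ n).toAffine.Point : Set (EJ n).toAffine.Point).ncard := rfl
    rw [h3, h1, Set.ncard_coe_finset]
  rw [h2, hS, Finset.card_insert_of_notMem, Finset.card_insert_of_notMem,
    Finset.card_insert_of_notMem, Finset.card_singleton]
  · rw [Finset.mem_singleton]
    intro h
    have h4 := ((Affine.Point.some.injEq ..).mp h).1
    linarith
  · rw [Finset.mem_insert, Finset.mem_singleton]
    rintro (h | h)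
    · have h4 := ((Affine.Point.some.injEq ..).mp h).1
      linarith
    · have h4 := ((Affine.Point.some.injEq ..).mp h).1
      linarith
  · simp only [Finset.mem_insert, Finset.mem_singleton]
    rintro (h | h | h)
    · exact Affine.Point.some_ne_zero _ h.symm
    · exact Affine.Point.some_ne_zero _ h.symm
    · exact Affine.Point.some_ne_zero _ h.symm

/-- the torsion subgroups of isomorphic groups -/
lemma card_tors {A B : Type*} [AddCommGroup A] [AddCommGroup B] (e : A ≃+ B) :
    Nat.card (AddCommGroup.torsion A) = Nat.card (AddCommGroup.torsion B) := by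
  refine Nat.card_congr (e.toEquiv.subtypeEquiv fun a => ?_)
  change IsOfFinAddOrder a ↔ IsOfFinAddOrder (e a)
  rw [isOfFinAddOrder_iff_nsmul_eq_zero, isOfFinAddOrder_iff_nsmul_eq_zero]
  refine exists_congr fun k => and_congr_right fun _ => ?_
  rw [← map_nsmul, AddEquiv.map_eq_zero_iff]

/-- the change of variables -/
lemma vr {n : ℕ} (W : WeierstrassCurve ℚ) (h1 : W.a₁ = 1) (h2 : 4 * W.a₂ = -n - 1)
    (h3 : W.a₃ = 0) (h4 : W.a₄ = -(4 * (n : ℚ) ^ 2))
    (h6 : W.a₆ = (n : ℚ) ^ 3) : VR (EJ n) W 2 (-n) 1 0 where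
  u0 := two_ne_zero
  e1 := by rw [h1]; ring
  e2 := by linear_combination h2
  e3 := by rw [h3]; ring
  e4 := by linear_combination 16 * h4
  e6 := by linear_combination 64 * h6

lemma deltaW {n : ℕ} (hn : n ≠ 0) {W : WeierstrassCurve ℚ} (h : VR (EJ n) W 2 (-n) 1 0) :
    W.Δ ≠ 0 := by
  intro h0
  have := h.delta
  rw [h0, mul_zero] at this
  exact delta hn this

open Classical in
/-- points and Tate-Shafarevich groups -/
theorem iso {n : ℕ} (hn : n ≠ 0) {W : WeierstrassCurve ℚ} (h : VR (EJ n) W 2 (-n) 1 0) :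
    (Finite W.toAffine.Point ↔ Finite (EJ n).toAffine.Point) ∧
    ∀ k : ℕ, ((∀ x : Sha W, k • x = 0 → x = 0) ↔ (∀ x : Sha (EJ n), k • x = 0 → x = 0)) := by
  have hD := deltaW hn h
  have e := h.equiv hD
  have f := (Pool.Agent.Y655.XT.isoVR h hD).sha
  refine ⟨⟨fun _ => Finite.of_equiv _ e.toEquiv, fun _ => Finite.of_equiv _ e.symm.toEquiv⟩, ?_⟩
  intro k
  constructor
  · intro h1 x hx
    have h2 := h1 (f.symm x) (by rw [← map_nsmul, hx, map_zero])
    rwa [AddEquiv.map_eq_zero_iff] at h2
  · intro h1 x hx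
    have h2 := h1 (f x) (by rw [← map_nsmul, hx, map_zero])
    rwa [AddEquiv.map_eq_zero_iff] at h2

open Classical in
theorem torsW {n : ℕ} (hn : n % 4 = 3) {W : WeierstrassCurve ℚ}
    (h : VR (EJ n) W 2 (-n) 1 0) : Nat.card (AddCommGroup.torsion W.toAffine.Point) = 4 := by
  rw [← tors_card hn]
  exact card_tors (h.equiv (deltaW (by omega) h))

theorem torsW' {n : ℕ} (hn : n % 4 = 3) {W : WeierstrassCurve ℚ}
    (h : VR (EJ n) W 2 (-n) 1 0) [inst : DecidableEq ℚ] :
    Nat.card (AddCommGroup.torsion W.toAffine.Point) = 4 := by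
  obtain rfl : inst = instDecidableEqRat := Subsingleton.elim _ _
  exact torsW hn h

end Run7.h424.M21
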