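import Pool.Agent.Run7.h424.M21.Tj

/-!
# The rational torsion points of `y² = x (x + 9 n) (x - 7 n)`, `n = 3` modulo `4`
-/

set_option autoImplicit false

open WeierstrassCurve

namespace Run7.h424.M21

lemma sq8 {z : ℤ} (h : z % 2 = 1) : z ^ 2 % 8 = 1 := by
  obtain ⟨k, rfl⟩ : ∃ k, z = 2 * k + 1 := ⟨z / 2, by omega⟩
  obtain ⟨m, hm⟩ := Int.even_mul_succ_self k
  have : (2 * k + 1) ^ 2 = 8 * m + 1 := by linear_combination 4 * hm
  omega

lemma sq4 {z : ℤ} (h : z % 2 = 0) : z ^ 2 % 4 = 0 := by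
  obtain ⟨k, rfl⟩ : ∃ k, z = 2 * k := ⟨z / 2, by omega⟩
  have : (2 * k) ^ 2 = 4 * k ^ 2 := by ring
  omega

/-- the congruences modulo powers of two -/
lemma intB {n p q s t u w : ℤ} (hn : n % 4 = 3) (hq : q % 2 = 1) (hw : w % 2 = 1)
    (h9 : s ^ 2 = p ^ 2 + 9 * n * q ^ 2) (h25 : t ^ 2 = p ^ 2 - 7 * n * q ^ 2)
    (hX : u ^ 2 * (4 * q ^ 2 * p ^ 2 * s ^ 2 * t ^ 2) =
      w ^ 2 * (p ^ 4 + 63 * n ^ 2 * q ^ 4) ^ 2) : False := by
  have q8 := sq8 hq
  obtain ⟨a, ha⟩ : ∃ a, q ^ 2 = 8 * a + 1 := ⟨q ^ 2 / 8, by omega⟩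
  obtain ⟨m, hm⟩ : ∃ m, n = 4 * m + 3 := ⟨n / 4, by omega⟩
  have e9 : 9 * n * q ^ 2 = 8 * (9 * n * a) + 9 * n := by rw [ha]; ring
  have e25 : 7 * n * q ^ 2 = 8 * (7 * n * a) + 7 * n := by rw [ha]; ring
  rcases Int.emod_two_eq_zero_or_one p with hp | hp
  · -- `p` even
    have p4 := sq4 hp
    rcases Int.emod_two_eq_zero_or_one s with hs | hs
    · have := sq4 hs
      omega
    · have := sq8 hs
      omega
  · have p8 := sq8 hp
    have hs : s % 2 = 0 := by
      rcases Int.emod_two_eq_zero_or_one s with hs | hs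
      · exact hs
      · have := sq8 hs
        omega
    have ht : t % 2 = 0 := by
      rcases Int.emod_two_eq_zero_or_one t with ht | ht
      · exact ht
      · have := sq8 ht
        omega
    obtain ⟨s', rfl⟩ : ∃ s', s = 2 * s' := ⟨s / 2, by omega⟩
    obtain ⟨t', rfl⟩ : ∃ t', t = 2 * t' := ⟨t / 2, by omega⟩
    have es : (2 * s') ^ 2 = 4 * s' ^ 2 := by ring
    have et : (2 * t') ^ 2 = 4 * t' ^ 2 := by ring
    rcases Int.emod_two_eq_zero_or_one m with hm2 | hm2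
    · -- `n = 3` modulo `8`
      have hs' : s' % 2 = 1 := by
        rcases Int.emod_two_eq_zero_or_one s' with h | h
        · have := sq4 h
          omega
        · exact h
      have ht' : t' % 2 = 1 := by
        rcases Int.emod_two_eq_zero_or_one t' with h | h
        · have := sq4 h
          omega
        · exact h
      have := sq8 hs'
      have := sq8 ht'
      have e1 : s' ^ 2 - t' ^ 2 = 4 * (n * q ^ 2) := by
        have e0 : 4 * (s' ^ 2 - t' ^ 2) = 4 * (4 * (n * q ^ 2)) := by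
          linear_combination h9 - h25
        omega
      have e2 : n * q ^ 2 = 8 * (n * a) + n := by rw [ha]; ring
      omega
    · -- `n = 7` modulo `8`
      have hs' : s' % 2 = 0 := by
        rcases Int.emod_two_eq_zero_or_one s' with h | h
        · exact h
        · have := sq8 h
          omega
      have ht' : t' % 2 = 0 := by
        rcases Int.emod_two_eq_zero_or_one t' with h | h
        · exact h
        · have := sq8 h
          omega
      obtain ⟨s'', rfl⟩ : ∃ s'', s' = 2 * s'' := ⟨s' / 2, by omega⟩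
      obtain ⟨t'', rfl⟩ : ∃ t'', t' = 2 * t'' := ⟨t' / 2, by omega⟩
      have f1 : p ^ 4 + 63 * n ^ 2 * q ^ 4 =
          16 * (16 * s'' ^ 4 - 18 * (s'' ^ 2 * (n * q ^ 2)) + 9 * (n * q ^ 2) ^ 2) := by
        have g1 : p ^ 2 = 16 * s'' ^ 2 - 9 * n * q ^ 2 := by linear_combination -h9
        have g2 : p ^ 4 = (16 * s'' ^ 2 - 9 * n * q ^ 2) ^ 2 := by
          rw [← g1]; ring
        rw [g2]
        ring
      have hnq : (n * q ^ 2) % 2 = 1 := by
        rw [ha]
        have : n * (8 * a + 1) = 2 * (4 * (n * a)) + n := by ring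
        omega
      obtain ⟨c, hc⟩ : ∃ c, c = n * q ^ 2 := ⟨_, rfl⟩
      rw [← hc] at f1 hnq
      have o1 : (16 * s'' ^ 4 - 18 * (s'' ^ 2 * c) + 9 * c ^ 2) % 2 = 1 := by
        have := sq8 hnq
        omega
      generalize 16 * s'' ^ 4 - 18 * (s'' ^ 2 * c) + 9 * c ^ 2 = c1 at f1 o1
      rw [f1] at hX
      have hX2 : 4 * (u ^ 2 * (q ^ 2 * p ^ 2 * s'' ^ 2 * t'' ^ 2)) = (w * c1) ^ 2 := by
        have e0 : 256 * (4 * (u ^ 2 * (q ^ 2 * p ^ 2 * s'' ^ 2 * t'' ^ 2))) =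
            256 * (w * c1) ^ 2 := by
          linear_combination hX
        omega
      have o3 : (w * c1) % 2 = 1 := by
        rw [Int.mul_emod, hw, o1]
        norm_num
      have := sq8 o3
      omega

lemma den_odd {a : ℚ} (h : 0 ≤ padicValRat 2 a) : (a.den : ℤ) % 2 = 1 := by
  by_contra hc
  have h2 : 2 ∣ a.den := by omega
  have hcop := a.reduced
  have h3 : ¬ 2 ∣ a.num.natAbs := by
    intro h3
    have := Nat.dvd_gcd h3 h2
    rw [hcop] at this
    omega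
  have h4 : padicValInt 2 a.num = 0 := by
    apply padicValInt.eq_zero_of_not_dvd
    intro h5
    exact h3 (by simpa using Int.natAbs_dvd_natAbs.2 h5)
  have h5 : 1 ≤ padicValNat 2 a.den := one_le_padicValNat_of_dvd a.den_nz h2
  unfold padicValRat at h
  rw [h4] at h
  omega

lemma sq_val {a x : ℚ} (hx : x = a ^ 2) (h : 0 ≤ padicValRat 2 x) : 0 ≤ padicValRat 2 a := by
  rw [hx, padicValRat.pow] at h
  push_cast at h
  omega

lemma int_sq {r : ℚ} {N : ℤ} (h : r ^ 2 = N) : ∃ s : ℤ, s ^ 2 = N := by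
  have h1 : IsSquare ((N : ℤ) : ℚ) := ⟨r, by rw [← h]; ring⟩
  rw [Rat.isSquare_intCast_iff] at h1
  obtain ⟨s, hs⟩ := h1
  exact ⟨s, by rw [hs]; ring⟩

/-- elements of odd order -/
lemma oddgrp {G : Type*} [AddCommGroup G] {P : G} {m : ℕ} (hm : Odd m) (h : m • P = 0)
    (h0 : P ≠ 0) : ∃ Q : G, Q + Q = P ∧ IsOfFinAddOrder P ∧ IsOfFinAddOrder (P + P) ∧
      P + P ≠ 0 := by
  obtain ⟨j, rfl⟩ := hm
  have h2 : P + P ≠ 0 := by
    intro h2
    apply h0
    rw [add_smul, one_smul, mul_comm, mul_smul, two_smul, h2, smul_zero, zero_add] at h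
    exact h
  refine ⟨(j + 1) • P, ?_, ?_, ?_, h2⟩
  · rw [← add_smul, show j + 1 + (j + 1) = (2 * j + 1) + 1 by ring, add_smul, h, zero_add,
      one_smul]
  · rw [isOfFinAddOrder_iff_nsmul_eq_zero]
    exact ⟨2 * j + 1, by omega, h⟩
  · rw [isOfFinAddOrder_iff_nsmul_eq_zero]
    exact ⟨2 * j + 1, by omega, by rw [smul_add, h, add_zero]⟩

open Classical in
/-- there are no points of odd order -/
lemma noodd {n : ℕ} (hn : n % 4 = 3) (P : (EJ n).toAffine.Point) {m : ℕ} (hm : Odd m)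
    (hP : m • P = 0) : P = 0 := by
  by_contra hP0
  have hn2 : n % 2 = 1 := by omega
  obtain ⟨Q, hQP, hPf, h2f, h2P⟩ := oddgrp hm hP hP0
  cases Q with
  | zero =>
    apply hP0
    rw [← hQP]
    exact add_zero _
  | some x y hxy =>
    have hy : y ≠ 0 := by
      rintro rfl
      have he := eqn.1 hxy.1
      have h1 : (Affine.Point.some x 0 hxy : (EJ n).toAffine.Point) + Affine.Point.some x 0 hxy
          = 0 := by
        apply Affine.Point.add_self_of_Y_eq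
        simp [Affine.negY]
      rw [h1] at hQP
      exact hP0 hQP.symm
    obtain ⟨X, Y, H, h1, hX, h9, h25⟩ := dbl x y hxy hy
    rw [h1] at hQP
    rw [← hQP] at hPf h2P h2f
    have vX := intA hn2 H hPf
    have hY : Y ≠ 0 := by
      rintro rfl
      apply h2P
      apply Affine.Point.add_self_of_Y_eq
      simp [Affine.negY]
    obtain ⟨X', Y', H', h1', hX', -⟩ := dbl X Y H hY
    rw [h1'] at h2f
    have vX' := intA hn2 H' h2f
    have d1 := den_odd (sq_val hX vX)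
    have d2 := den_odd (sq_val hX' vX')
    have he := eqn.1 H.1
    set a := (x ^ 2 + 63 * (n : ℚ) ^ 2) / (2 * y) with ha
    set b := ((x + 9 * (n : ℚ)) ^ 2 - 144 * (n : ℚ) ^ 2) / (2 * y) with hb
    set c := ((x - 7 * (n : ℚ)) ^ 2 - 112 * (n : ℚ) ^ 2) / (2 * y) with hc
    set a' := (X ^ 2 + 63 * (n : ℚ) ^ 2) / (2 * Y) with ha'
    have hq0 : (a.den : ℚ) ≠ 0 := by exact_mod_cast a.den_nz
    have hw0 : (a'.den : ℚ) ≠ 0 := by exact_mod_cast a'.den_nz
    have ea : a * a.den = a.num := Rat.mul_den_eq_num a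
    have ea' : a' * a'.den = a'.num := Rat.mul_den_eq_num a'
    obtain ⟨s, hs⟩ := int_sq (r := b * a.den) (N := a.num ^ 2 + 9 * n * (a.den : ℤ) ^ 2) (by
      push_cast
      rw [mul_pow, ← h9, ← ea, hX]
      ring)
    obtain ⟨t, ht⟩ := int_sq (r := c * a.den) (N := a.num ^ 2 - 7 * n * (a.den : ℤ) ^ 2) (by
      push_cast
      rw [mul_pow, ← h25, ← ea, hX]
      ring)
    refine intB (n := n) (p := a.num) (q := a.den) (s := s) (t := t) (u := a'.num) (w := a'.den)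
      (by omega) d1 d2 hs ht ?_
    have hs' : (s : ℚ) ^ 2 = a.num ^ 2 + 9 * n * (a.den : ℚ) ^ 2 := by exact_mod_cast hs
    have ht' : (t : ℚ) ^ 2 = a.num ^ 2 - 7 * n * (a.den : ℚ) ^ 2 := by exact_mod_cast ht
    have hfin : (a'.num : ℚ) ^ 2 * (4 * (a.den : ℚ) ^ 2 * (a.num : ℚ) ^ 2 * (s : ℚ) ^ 2 *
        (t : ℚ) ^ 2) = (a'.den : ℚ) ^ 2 * ((a.num : ℚ) ^ 4 + 63 * (n : ℚ) ^ 2 *
          (a.den : ℚ) ^ 4) ^ 2 := by
      have g1 : a' * (2 * Y) = X ^ 2 + 63 * (n : ℚ) ^ 2 := by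
        rw [ha']
        field_simp
      rw [hs', ht', ← ea', ← ea]
      have g2 : (a' * (2 * Y)) ^ 2 = (X ^ 2 + 63 * (n : ℚ) ^ 2) ^ 2 := by rw [g1]
      have g3 : a' ^ 2 * (4 * (a ^ 2 * (a ^ 2 + 9 * n) * (a ^ 2 - 7 * n))) =
          (a ^ 4 + 63 * (n : ℚ) ^ 2) ^ 2 := by
        rw [← hX, ← he, show a ^ 4 = (a ^ 2) ^ 2 by ring, ← hX]
        linear_combination g2
      linear_combination ((a'.den : ℚ) ^ 2 * (a.den : ℚ) ^ 8) * g3
    exact_mod_cast hfin

end Run7.h424.M21
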